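import Mathlib

/-!
# OW/FW: discrepancies of the pieces of a partition of a window, the test function
(helper644 for helper176, project OW). The first two lemmas are copied from `Pool.Agent.W66.QC`.
-/

set_option autoImplicit false

namespace Pool.Agent.N644.OW

section copied

open Filter Topology Set MeasureTheory Metric

lemma ii_of_bdd {f : ℝ → ℝ} (hf : Measurable f) {M : ℝ} (hM : ∀ x, |f x| ≤ M) (a b : ℝ) :
    IntervalIntegrable f volume a b := by
  rw [intervalIntegrable_iff]
  exact Measure.integrableOn_of_bounded (M := M) (by simp) hf.aestronglyMeasurable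
    (Eventually.of_forall fun x => by rw [Real.norm_eq_abs]; exact hM x)

lemma mono_var {Ψ : ℝ → ℝ} (hΨ : Monotone Ψ) (hΨ0 : ∀ x, 0 ≤ Ψ x) (Y v h : ℝ) (hh : 0 ≤ h)
    (hv : |v| ≤ h) : ∫ u in Y..(Y + 1), |Ψ (u + v) - Ψ u| ≤ h * Ψ (Y + 1 + h) := by
  have hii : ∀ a b, IntervalIntegrable Ψ volume a b := fun a b => hΨ.intervalIntegrable
  have hii2 : ∀ a b, IntervalIntegrable (fun u => Ψ (u + v)) volume a b := fun a b =>
    (show Monotone (fun u => Ψ (u + v)) from fun x y hxy => hΨ (by linarith)).intervalIntegrable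
  have hub : ∀ a b : ℝ, a ≤ b → b ≤ Y + 1 + h → ∫ u in a..b, Ψ u ≤ (b - a) * Ψ (Y + 1 + h) := by
    intro a b hab hb
    have := intervalIntegral.integral_mono_on hab (hii a b)
      (intervalIntegrable_const (c := Ψ (Y + 1 + h))) (fun x hx => hΨ (hx.2.trans hb))
    simpa using this
  have hlb : ∀ a b : ℝ, a ≤ b → 0 ≤ ∫ u in a..b, Ψ u := fun a b hab =>
    intervalIntegral.integral_nonneg hab fun x _ => hΨ0 x
  have hcomp : ∫ u in Y..(Y + 1), Ψ (u + v) = ∫ u in (Y + v)..(Y + 1 + v), Ψ u :=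
    intervalIntegral.integral_comp_add_right Ψ v
  have hP := hΨ0 (Y + 1 + h)
  rw [abs_le] at hv
  rcases le_total 0 v with h0 | h0
  · have e : ∫ u in Y..(Y + 1), |Ψ (u + v) - Ψ u| =
        (∫ u in Y..(Y + 1), Ψ (u + v)) - ∫ u in Y..(Y + 1), Ψ u := by
      rw [← intervalIntegral.integral_sub (hii2 _ _) (hii _ _)]
      congr 1
      ext u
      exact abs_of_nonneg (sub_nonneg.2 (hΨ (by linarith)))
    rw [e, hcomp]
    have h1 := intervalIntegral.integral_add_adjacent_intervals (hii Y (Y + v)) (hii (Y + v) (Y + 1))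
    have h2 := intervalIntegral.integral_add_adjacent_intervals (hii (Y + v) (Y + 1))
      (hii (Y + 1) (Y + 1 + v))
    have h3 := hlb Y (Y + v) (by linarith)
    have h4 := hub (Y + 1) (Y + 1 + v) (by linarith) (by linarith)
    have h5 : (Y + 1 + v - (Y + 1)) * Ψ (Y + 1 + h) ≤ h * Ψ (Y + 1 + h) :=
      mul_le_mul_of_nonneg_right (by linarith) hP
    linarith
  · have e : ∫ u in Y..(Y + 1), |Ψ (u + v) - Ψ u| =
        (∫ u in Y..(Y + 1), Ψ u) - ∫ u in Y..(Y + 1), Ψ (u + v) := by
      rw [← intervalIntegral.integral_sub (hii _ _) (hii2 _ _)]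
      congr 1
      ext u
      rw [abs_of_nonpos (sub_nonpos.2 (hΨ (by linarith)))]
      ring
    rw [e, hcomp]
    have h1 := intervalIntegral.integral_add_adjacent_intervals (hii (Y + v) Y) (hii Y (Y + 1 + v))
    have h2 := intervalIntegral.integral_add_adjacent_intervals (hii Y (Y + 1 + v))
      (hii (Y + 1 + v) (Y + 1))
    have h3 := hlb (Y + v) Y (by linarith)
    have h4 := hub (Y + 1 + v) (Y + 1) (by linarith) (by linarith)
    have h5 : (Y + 1 - (Y + 1 + v)) * Ψ (Y + 1 + h) ≤ h * Ψ (Y + 1 + h) :=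
      mul_le_mul_of_nonneg_right (by linarith) hP
    linarith

end copied

open Finset MeasureTheory

/-- the indicator function of `(a, ∞)` -/
noncomputable def Hv (a u : ℝ) : ℝ := if a < u then 1 else 0

lemma Hv_mono (a : ℝ) : Monotone (Hv a) := by
  intro x y hxy
  unfold Hv
  by_cases h : a < x
  · rw [if_pos h, if_pos (h.trans_le hxy)]
  · rw [if_neg h]
    split_ifs <;> norm_num

lemma Hv_anti {a b : ℝ} (hab : a ≤ b) (u : ℝ) : Hv b u ≤ Hv a u := by
  unfold Hv
  by_cases h : b < u
  · rw [if_pos h, if_pos (hab.trans_lt h)]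
  · rw [if_neg h]
    split_ifs <;> norm_num

lemma Hv_nn (a u : ℝ) : 0 ≤ Hv a u := by
  unfold Hv
  split_ifs <;> norm_num

lemma Hv_le (a u : ℝ) : Hv a u ≤ 1 := by
  unfold Hv
  split_ifs <;> norm_num

lemma Hv_meas (a : ℝ) : Measurable (Hv a) := (Hv_mono a).measurable

/-- the exponential function, cut off at `Y + 1` -/
noncomputable def Ex (Y u : ℝ) : ℝ := Real.exp (min (u - Y - 1) 0)

lemma Ex_cont (Y : ℝ) : Continuous (Ex Y) := by
  unfold Ex
  fun_prop

lemma Ex_pos (Y u : ℝ) : 0 < Ex Y u := Real.exp_pos _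

lemma Ex_le (Y u : ℝ) : Ex Y u ≤ 1 := Real.exp_le_one_iff.2 (min_le_right _ _)

lemma exp_lip {x y : ℝ} (hx : x ≤ 0) (_hy : y ≤ 0) : Real.exp x - Real.exp y ≤ |x - y| := by
  have h1 := Real.add_one_le_exp (y - x)
  have h2 : Real.exp y = Real.exp x * Real.exp (y - x) := by rw [← Real.exp_add]; congr 1; ring
  have h3 : Real.exp x ≤ 1 := Real.exp_le_one_iff.2 hx
  have h4 := Real.exp_pos x
  have h5 := le_abs_self (x - y)
  have h6 := abs_nonneg (x - y)
  rw [h2]
  nlinarith

lemma Ex_lip (Y u v : ℝ) : |Ex Y (u + v) - Ex Y u| ≤ |v| := by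
  have h0 : |min (u + v - Y - 1) 0 - min (u - Y - 1) 0| ≤ |v| := by
    have := abs_min_sub_min_le_max (u + v - Y - 1) 0 (u - Y - 1) 0
    rw [sub_self, abs_zero, max_eq_left (abs_nonneg _)] at this
    have e : u + v - Y - 1 - (u - Y - 1) = v := by ring
    rwa [e] at this
  unfold Ex
  rw [abs_sub_le_iff]
  constructor
  · exact (exp_lip (min_le_right _ _) (min_le_right _ _)).trans h0
  · refine (exp_lip (min_le_right _ _) (min_le_right _ _)).trans ?_
    rw [abs_sub_comm]
    exact h0

/-- the step function with the values `σ j` on `(A j, A (j + 1)]` -/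
noncomputable def St (σ A : ℕ → ℝ) (N : ℕ) (u : ℝ) : ℝ :=
  ∑ j ∈ range N, σ j * (Hv (A j) u - Hv (A (j + 1)) u)

lemma St_le {σ A : ℕ → ℝ} (hσ : ∀ j, |σ j| ≤ 1) (hA : Monotone A) (N : ℕ) (u : ℝ) :
    |St σ A N u| ≤ 1 := by
  have h1 : |St σ A N u| ≤ ∑ j ∈ range N, (Hv (A j) u - Hv (A (j + 1)) u) := by
    refine (abs_sum_le_sum_abs _ _).trans (sum_le_sum fun j _ => ?_)
    have h2 := Hv_anti (hA (Nat.le_succ j)) u
    rw [abs_mul, abs_of_nonneg (show 0 ≤ Hv (A j) u - Hv (A (j + 1)) u by
      exact sub_nonneg.2 h2)]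
    calc |σ j| * (Hv (A j) u - Hv (A (j + 1)) u) ≤ 1 * (Hv (A j) u - Hv (A (j + 1)) u) :=
          mul_le_mul_of_nonneg_right (hσ j) (sub_nonneg.2 h2)
      _ = _ := one_mul _
  rw [sum_range_sub' (fun j => Hv (A j) u) N] at h1
  have h2 := Hv_le (A 0) u
  have h3 := Hv_nn (A N) u
  linarith

lemma St_meas (σ A : ℕ → ℝ) (N : ℕ) : Measurable (St σ A N) := by
  unfold St
  refine Finset.measurable_sum _ fun j _ => ?_
  exact measurable_const.mul ((Hv_meas _).sub (Hv_meas _))

lemma piece {Y a b : ℝ} (h1 : Y ≤ a) (h2 : a ≤ b) (h3 : b ≤ Y + 1) (F : ℝ → ℝ) :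
    ∫ u in Y..(Y + 1), (Hv a u - Hv b u) * F u = ∫ u in a..b, F u := by
  rw [intervalIntegral.integral_of_le (by linarith), intervalIntegral.integral_of_le h2]
  have h4 : (fun u => (Hv a u - Hv b u) * F u) = (Set.Ioc a b).indicator F := by
    funext u
    unfold Hv
    by_cases ha : a < u
    · by_cases hb : b < u
      · rw [if_pos ha, if_pos hb, sub_self, zero_mul, Set.indicator_of_notMem
          (fun h => absurd h.2 (not_le.2 hb))]
      · rw [if_pos ha, if_neg hb, sub_zero, one_mul,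
          Set.indicator_of_mem (show u ∈ Set.Ioc a b from ⟨ha, not_lt.1 hb⟩)]
    · have hb : ¬ b < u := fun h => ha (h2.trans_lt h)
      rw [if_neg ha, if_neg hb, sub_self, zero_mul, Set.indicator_of_notMem
          (fun h => ha h.1)]
  rw [h4, setIntegral_indicator measurableSet_Ioc]
  congr 2
  ext u
  constructor
  · exact fun h => h.2
  · exact fun h => ⟨⟨lt_of_le_of_lt h1 h.1, h.2.trans h3⟩, h⟩

theorem fw_core {G : ℝ → ℝ} (hG : Measurable G) (hG1 : ∀ x, |G x| ≤ 1) {Y : ℝ} {N : ℕ}
    {A : ℕ → ℝ} (hA : Monotone A) (h0 : Y ≤ A 0) (hN : A N ≤ Y + 1) :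
    ∃ φ0 : ℝ → ℝ, Measurable φ0 ∧ (∀ x, |φ0 x| ≤ 1) ∧
      (∀ h : ℝ, 0 ≤ h → h ≤ 1 → ∀ v : ℝ, |v| ≤ h →
        ∫ u in Y..(Y + 1), |φ0 (u + v) - φ0 u| ≤ h * (2 * N + 1)) ∧
      ∑ j ∈ range N, |∫ u in (A j)..(A (j + 1)), Real.exp (u - Y) * G u| =
        Real.exp 1 * ∫ u in Y..(Y + 1), φ0 u * G u := by
  obtain ⟨I, hI⟩ : ∃ I : ℕ → ℝ, I = fun j => ∫ u in (A j)..(A (j + 1)), Real.exp (u - Y) * G u :=
    ⟨_, rfl⟩
  obtain ⟨σ, hσ⟩ : ∃ σ : ℕ → ℝ, σ = fun j => if 0 ≤ I j then 1 else -1 := ⟨_, rfl⟩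
  have hσ1 : ∀ j, |σ j| ≤ 1 := fun j => by
    rw [hσ]
    simp only
    split_ifs <;> simp
  have hσ2 : ∀ j, σ j * I j = |I j| := fun j => by
    rw [hσ]
    simp only
    split_ifs with h
    · rw [one_mul, abs_of_nonneg h]
    · rw [neg_one_mul, abs_of_neg (not_le.1 h)]
  have hm : Measurable fun u => St σ A N u * Ex Y u := (St_meas σ A N).mul (Ex_cont Y).measurable
  have hb : ∀ x, |St σ A N x * Ex Y x| ≤ 1 := fun x => by
    rw [abs_mul, abs_of_pos (Ex_pos Y x)]
    calc |St σ A N x| * Ex Y x ≤ 1 * 1 :=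
          mul_le_mul (St_le hσ1 hA N x) (Ex_le Y x) (Ex_pos Y x).le zero_le_one
      _ = 1 := one_mul 1
  refine ⟨fun u => St σ A N u * Ex Y u, hm, hb, ?_, ?_⟩
  · intro h hh hh1 v hv
    have p1 : ∀ u : ℝ, |St σ A N (u + v) * Ex Y (u + v) - St σ A N u * Ex Y u| ≤
        (∑ j ∈ range N, (|Hv (A j) (u + v) - Hv (A j) u| +
          |Hv (A (j + 1)) (u + v) - Hv (A (j + 1)) u|)) + h := by
      intro u
      have e1 : St σ A N (u + v) * Ex Y (u + v) - St σ A N u * Ex Y u =
          (St σ A N (u + v) - St σ A N u) * Ex Y (u + v) +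
          St σ A N u * (Ex Y (u + v) - Ex Y u) := by ring
      rw [e1]
      refine (abs_add_le _ _).trans (add_le_add ?_ ?_)
      · rw [abs_mul, abs_of_pos (Ex_pos _ _)]
        have e2 : St σ A N (u + v) - St σ A N u = ∑ j ∈ range N, σ j *
            ((Hv (A j) (u + v) - Hv (A j) u) - (Hv (A (j + 1)) (u + v) - Hv (A (j + 1)) u)) := by
          unfold St
          rw [← sum_sub_distrib]
          exact sum_congr rfl fun j _ => by ring
        have e3 : |St σ A N (u + v) - St σ A N u| ≤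
            ∑ j ∈ range N, (|Hv (A j) (u + v) - Hv (A j) u| +
              |Hv (A (j + 1)) (u + v) - Hv (A (j + 1)) u|) := by
          rw [e2]
          refine (abs_sum_le_sum_abs _ _).trans (sum_le_sum fun j _ => ?_)
          rw [abs_mul]
          calc |σ j| * |(Hv (A j) (u + v) - Hv (A j) u) -
                (Hv (A (j + 1)) (u + v) - Hv (A (j + 1)) u)| ≤
              1 * |(Hv (A j) (u + v) - Hv (A j) u) -
                (Hv (A (j + 1)) (u + v) - Hv (A (j + 1)) u)| :=
                mul_le_mul_of_nonneg_right (hσ1 j) (abs_nonneg _)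
            _ ≤ _ := by
                rw [one_mul]
                exact abs_sub _ _
        calc |St σ A N (u + v) - St σ A N u| * Ex Y (u + v) ≤
            |St σ A N (u + v) - St σ A N u| * 1 :=
              mul_le_mul_of_nonneg_left (Ex_le _ _) (abs_nonneg _)
          _ ≤ _ := by rw [mul_one]; exact e3
      · rw [abs_mul]
        calc |St σ A N u| * |Ex Y (u + v) - Ex Y u| ≤ 1 * |v| :=
              mul_le_mul (St_le hσ1 hA N u) (Ex_lip Y u v) (abs_nonneg _) zero_le_one
          _ ≤ h := by rw [one_mul]; exact hv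
    have hii : ∀ j, IntervalIntegrable (fun u => |Hv (A j) (u + v) - Hv (A j) u|) volume
        Y (Y + 1) := by
      intro j
      refine ii_of_bdd (M := 1) ?_ ?_ _ _
      · exact (((Hv_meas (A j)).comp (by fun_prop : Measurable fun u : ℝ => u + v)).sub
          (Hv_meas (A j))).norm
      · intro x
        rw [abs_abs, abs_le]
        constructor <;> linarith [Hv_nn (A j) (x + v), Hv_nn (A j) x, Hv_le (A j) (x + v),
          Hv_le (A j) x]
    have hmv : ∀ j, ∫ u in Y..(Y + 1), |Hv (A j) (u + v) - Hv (A j) u| ≤ h := by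
      intro j
      refine (mono_var (Hv_mono (A j)) (Hv_nn (A j)) Y v h hh hv).trans ?_
      calc h * Hv (A j) (Y + 1 + h) ≤ h * 1 := mul_le_mul_of_nonneg_left (Hv_le _ _) hh
        _ = h := mul_one h
    have hii2 : ∀ j ∈ range N, IntervalIntegrable (fun u => |Hv (A j) (u + v) - Hv (A j) u| +
        |Hv (A (j + 1)) (u + v) - Hv (A (j + 1)) u|) volume Y (Y + 1) :=
      fun j _ => (hii j).add (hii (j + 1))
    have hii3 : IntervalIntegrable (fun u => ∑ j ∈ range N, (|Hv (A j) (u + v) - Hv (A j) u| +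
        |Hv (A (j + 1)) (u + v) - Hv (A (j + 1)) u|)) volume Y (Y + 1) := by
      have := IntervalIntegrable.sum (range N) (f := fun j u => |Hv (A j) (u + v) - Hv (A j) u| +
        |Hv (A (j + 1)) (u + v) - Hv (A (j + 1)) u|) hii2
      refine this.congr fun u _ => ?_
      rw [Finset.sum_apply]
    calc ∫ u in Y..(Y + 1), |St σ A N (u + v) * Ex Y (u + v) - St σ A N u * Ex Y u| ≤
        ∫ u in Y..(Y + 1), ((∑ j ∈ range N, (|Hv (A j) (u + v) - Hv (A j) u| +
          |Hv (A (j + 1)) (u + v) - Hv (A (j + 1)) u|)) + h) := by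
          apply intervalIntegral.integral_mono_on (by linarith)
          · refine ii_of_bdd (M := 2) ?_ ?_ _ _
            · exact ((hm.comp (by fun_prop : Measurable fun u : ℝ => u + v)).sub hm).norm
            · intro x
              rw [abs_abs]
              refine (abs_sub _ _).trans ?_
              linarith [hb (x + v), hb x]
          · exact hii3.add intervalIntegrable_const
          · exact fun u _ => p1 u
      _ = (∑ j ∈ range N, ((∫ u in Y..(Y + 1), |Hv (A j) (u + v) - Hv (A j) u|) +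
          ∫ u in Y..(Y + 1), |Hv (A (j + 1)) (u + v) - Hv (A (j + 1)) u|)) + h := by
          rw [intervalIntegral.integral_add hii3 intervalIntegrable_const,
            intervalIntegral.integral_finsetSum hii2, intervalIntegral.integral_const]
          congr 1
          · refine sum_congr rfl fun j _ => ?_
            rw [intervalIntegral.integral_add (hii j) (hii (j + 1))]
          · simp
      _ ≤ (∑ _j ∈ range N, (h + h)) + h := by
          refine add_le_add (sum_le_sum fun j _ => add_le_add (hmv j) (hmv (j + 1))) le_rfl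
      _ = h * (2 * N + 1) := by
          rw [sum_const, card_range, nsmul_eq_mul]
          ring
  · have q1 : ∫ u in Y..(Y + 1), St σ A N u * Ex Y u * G u =
        ∑ j ∈ range N, σ j * ∫ u in Y..(Y + 1), (Hv (A j) u - Hv (A (j + 1)) u) *
          (Ex Y u * G u) := by
      have e1 : ∀ u, St σ A N u * Ex Y u * G u = ∑ j ∈ range N,
          σ j * ((Hv (A j) u - Hv (A (j + 1)) u) * (Ex Y u * G u)) := by
        intro u
        unfold St
        rw [sum_mul, sum_mul]
        exact sum_congr rfl fun j _ => by ring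
      simp_rw [e1]
      rw [intervalIntegral.integral_finsetSum]
      · exact sum_congr rfl fun j _ => by rw [intervalIntegral.integral_const_mul]
      · intro j _
        refine IntervalIntegrable.const_mul ?_ _
        refine ii_of_bdd (M := 1) ?_ ?_ _ _
        · exact ((Hv_meas _).sub (Hv_meas _)).mul ((Ex_cont Y).measurable.mul hG)
        · intro x
          rw [abs_mul, abs_mul, abs_of_pos (Ex_pos Y x)]
          have e2 : |Hv (A j) x - Hv (A (j + 1)) x| ≤ 1 := by
            rw [abs_le]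
            constructor <;> linarith [Hv_nn (A j) x, Hv_nn (A (j + 1)) x, Hv_le (A (j + 1)) x,
              Hv_le (A j) x]
          have e3 : Ex Y x * |G x| ≤ 1 * 1 :=
            mul_le_mul (Ex_le Y x) (hG1 x) (abs_nonneg _) zero_le_one
          calc |Hv (A j) x - Hv (A (j + 1)) x| * (Ex Y x * |G x|) ≤ 1 * (1 * 1) :=
                mul_le_mul e2 e3 (mul_nonneg (Ex_pos Y x).le (abs_nonneg _)) zero_le_one
            _ = 1 := by ring
    rw [q1, mul_sum]
    refine sum_congr rfl fun j hj => ?_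
    have hjN : j + 1 ≤ N := mem_range.1 hj
    have a1 : Y ≤ A j := h0.trans (hA (Nat.zero_le j))
    have a2 : A j ≤ A (j + 1) := hA (Nat.le_succ j)
    have a3 : A (j + 1) ≤ Y + 1 := (hA hjN).trans hN
    rw [piece a1 a2 a3]
    have e4 : ∫ u in (A j)..(A (j + 1)), Ex Y u * G u = Real.exp (-1) * I j := by
      rw [hI]
      simp only
      rw [← intervalIntegral.integral_const_mul]
      refine intervalIntegral.integral_congr fun u hu => ?_
      rw [Set.uIcc_of_le a2] at hu
      change Ex Y u * G u = Real.exp (-1) * (Real.exp (u - Y) * G u)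
      unfold Ex
      rw [min_eq_left (by linarith [hu.2]), ← mul_assoc, ← Real.exp_add]
      congr 2
      ring
    have e5 : Real.exp 1 * (σ j * (Real.exp (-1) * I j)) = σ j * I j := by
      have : Real.exp 1 * Real.exp (-1) = 1 := by rw [← Real.exp_add]; simp
      calc Real.exp 1 * (σ j * (Real.exp (-1) * I j)) =
          (Real.exp 1 * Real.exp (-1)) * (σ j * I j) := by ring
        _ = _ := by rw [this, one_mul]
    rw [e4, e5, hσ2, hI]

end Pool.Agent.N644.OW
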