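import Pool.Agent.N176.OW.Stm2
import Pool.Agent.N644.OW.FWa

/-!
# OW/FW: discrepancies of the pieces of a partition of a window (helper644 for helper176, project OW)
-/

set_option autoImplicit false

namespace Pool.Agent.N644.OW

open Finset MeasureTheory
open Pool.Agent.N176.OW (S_FA S_FW)

theorem fw (h : S_FA) : S_FW := by
  intro c1 hc1
  obtain ⟨κ, K, hκ, hK, P, hP⟩ := h c1 hc1
  refine ⟨κ / 2, Real.exp 1 * K, by positivity, mul_pos (Real.exp_pos _) hK,
    max P ⌈4 / (κ * c1)⌉₊, ?_⟩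
  intro q hq Y hY N A hA hN h0 h1
  have hq1 : P ≤ q := (le_max_left _ _).trans hq
  have hq2 : 4 / (κ * c1) ≤ q :=
    (Nat.le_ceil _).trans (by exact_mod_cast (le_max_right P _).trans hq)
  have hκY : 4 ≤ κ * Y := by
    rw [div_le_iff₀ (by positivity)] at hq2
    calc (4 : ℝ) ≤ q * (κ * c1) := hq2
      _ = κ * (c1 * q) := by ring
      _ ≤ κ * Y := mul_le_mul_of_nonneg_left hY hκ.le
  obtain ⟨φ0, m1, m2, m3, m4⟩ := fw_core (Pool.Agent.H305R2.measurable_gg q)
    (Pool.Agent.H305R2.abs_gg_le_one q) hA h0 h1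
  have hN0 : (0 : ℝ) ≤ N := Nat.cast_nonneg N
  have hM : Real.log (2 * N + 1) ≤ κ * Y := by
    rw [Real.log_le_iff_le_exp (by positivity)]
    have e1 : (1 : ℝ) ≤ Real.exp (κ / 2 * Y) := Real.one_le_exp (by linarith)
    have e2 : (3 : ℝ) ≤ Real.exp 2 := by
      have := Real.add_one_le_exp (2 : ℝ)
      linarith
    calc (2 * N + 1 : ℝ) ≤ 3 * Real.exp (κ / 2 * Y) := by linarith
      _ ≤ Real.exp 2 * Real.exp (κ / 2 * Y) :=
          mul_le_mul_of_nonneg_right e2 (Real.exp_pos _).le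
      _ = Real.exp (2 + κ / 2 * Y) := by rw [Real.exp_add]
      _ ≤ Real.exp (κ * Y) := Real.exp_le_exp.2 (by linarith)
  have h3 := hP q hq1 φ0 Y (Real.log (2 * N + 1)) m1 m2 hY hM (by
    intro t ht ht1 v hv
    refine (m3 t ht ht1 v hv).trans ?_
    rw [Real.exp_log (by positivity)]
    linarith)
  rw [m4]
  calc Real.exp 1 * ∫ u in Y..(Y + 1), φ0 u * Pool.Agent.H305R2.gg q u ≤
      Real.exp 1 * (K * (Real.log q / q ^ 2)) :=
        mul_le_mul_of_nonneg_left ((le_abs_self _).trans h3) (Real.exp_pos _).le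
    _ = _ := by ring

end Pool.Agent.N644.OW
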